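import Pool.Agent.H24.SCG2.Stmts2

/-!
# AUNZ: normal form of the automorphisms in `AutG F`
-/

namespace Pool.Agent.H64.SCG2.AUNZ

open Matrix Pool.SCG

variable {F : Type} [Field F]

theorem fieldAut_mul (σ τ : F ≃+* F) : fieldAut σ * fieldAut τ = fieldAut (σ * τ) := by
  ext g : 1
  apply Subtype.ext
  rfl

theorem fieldAut_one : fieldAut (1 : F ≃+* F) = 1 := by
  ext g : 1
  apply Subtype.ext
  rfl

theorem fieldAut_it (σ : F ≃+* F) (g : SL3 F) : fieldAut σ (it g) = it (fieldAut σ g) := by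
  simp only [it]
  rw [← map_inv]
  rfl

theorem field_graph (σ : F ≃+* F) : fieldAut σ * graphAut F = graphAut F * fieldAut σ := by
  ext g : 1
  exact fieldAut_it σ g

theorem graph_sq : graphAut F * graphAut F = 1 := by
  ext g : 1
  exact it_it g

theorem diag_mul (P Q : GL (Fin 3) F) : diagAut P * diagAut Q = diagAut (P * Q) := by
  ext g : 1
  apply Subtype.ext
  show (P : M3 F) * ((Q : M3 F) * g.1 * ((Q⁻¹ : GL (Fin 3) F) : M3 F)) *
    ((P⁻¹ : GL (Fin 3) F) : M3 F) = ((P * Q : GL (Fin 3) F) : M3 F) * g.1 *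
      (((P * Q)⁻¹ : GL (Fin 3) F) : M3 F)
  rw [_root_.mul_inv_rev, Units.val_mul, Units.val_mul]
  simp only [mul_assoc]

theorem diag_one : diagAut (1 : GL (Fin 3) F) = 1 := by
  ext g : 1
  apply Subtype.ext
  show ((1 : GL (Fin 3) F) : M3 F) * g.1 * (((1 : GL (Fin 3) F)⁻¹ : GL (Fin 3) F) : M3 F) = g.1
  rw [inv_one, Units.val_one, one_mul, mul_one]

/-- The inverse transpose. -/
def tP (P : GL (Fin 3) F) : GL (Fin 3) F :=
  ⟨((P⁻¹ : GL (Fin 3) F) : M3 F).transpose, (P : M3 F).transpose, by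
    rw [← Matrix.transpose_mul, ← Units.val_mul, mul_inv_cancel, Units.val_one,
      Matrix.transpose_one], by
    rw [← Matrix.transpose_mul, ← Units.val_mul, inv_mul_cancel, Units.val_one,
      Matrix.transpose_one]⟩

theorem graph_diag (P : GL (Fin 3) F) : graphAut F * diagAut P = diagAut (tP P) * graphAut F := by
  ext g : 1
  apply Subtype.ext
  show ((it (diagAut P g) : SL3 F) : M3 F) = ((P⁻¹ : GL (Fin 3) F) : M3 F).transpose *
    ((it g : SL3 F) : M3 F) * (P : M3 F).transpose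
  rw [coe_it, coe_it, ← Matrix.transpose_mul, ← Matrix.transpose_mul]
  congr 1
  have e1 : (P : M3 F) * ((P⁻¹ : GL (Fin 3) F) : M3 F) = 1 := by
    rw [← Units.val_mul, mul_inv_cancel, Units.val_one]
  have e2 : ((P⁻¹ : GL (Fin 3) F) : M3 F) * (P : M3 F) = 1 := by
    rw [← Units.val_mul, inv_mul_cancel, Units.val_one]
  refine adj_unique (diagAut P g).2 ?_
  show (P : M3 F) * g.1 * ((P⁻¹ : GL (Fin 3) F) : M3 F) *
    ((P : M3 F) * (adjugate g.1 * ((P⁻¹ : GL (Fin 3) F) : M3 F))) = 1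
  calc (P : M3 F) * g.1 * ((P⁻¹ : GL (Fin 3) F) : M3 F) *
      ((P : M3 F) * (adjugate g.1 * ((P⁻¹ : GL (Fin 3) F) : M3 F)))
      = (P : M3 F) * (g.1 * (((P⁻¹ : GL (Fin 3) F) : M3 F) * (P : M3 F)) * adjugate g.1) *
        ((P⁻¹ : GL (Fin 3) F) : M3 F) := by simp only [mul_assoc]
    _ = 1 := by rw [e2, mul_one, mul_adj_self g.2, mul_one, e1]

theorem field_diag (σ : F ≃+* F) (P : GL (Fin 3) F) :
    ∃ Q : GL (Fin 3) F, fieldAut σ * diagAut P = diagAut Q * fieldAut σ := by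
  refine ⟨Matrix.GeneralLinearGroup.map (σ : F →+* F) P, ?_⟩
  ext g : 1
  apply Subtype.ext
  show ((P : M3 F) * g.1 * ((P⁻¹ : GL (Fin 3) F) : M3 F)).map (σ : F →+* F) =
    ((P : M3 F).map (σ : F →+* F)) * (g.1.map (σ : F →+* F)) *
      (((Matrix.GeneralLinearGroup.map (σ : F →+* F) P)⁻¹ : GL (Fin 3) F) : M3 F)
  rw [← map_inv, Matrix.map_mul, Matrix.map_mul]
  rfl

/-- The normal form. -/
def NFm (α : MulAut (SL3 F)) : Prop := ∃ (P : GL (Fin 3) F) (σ : F ≃+* F),
  α = diagAut P * fieldAut σ ∨ α = graphAut F * diagAut P * fieldAut σ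

theorem nf_mul {α β : MulAut (SL3 F)} (hα : NFm α) (hβ : NFm β) : NFm (α * β) := by
  -- left multiplication with the generators
  have h1 : ∀ (P : GL (Fin 3) F) (γ : MulAut (SL3 F)), NFm γ → NFm (diagAut P * γ) := by
    rintro P γ ⟨Q, τ, rfl | rfl⟩
    · exact ⟨P * Q, τ, Or.inl (by rw [← diag_mul, mul_assoc])⟩
    · refine ⟨tP P * Q, τ, Or.inr ?_⟩
      have h2 : diagAut P * graphAut F = graphAut F * diagAut (tP P) := by
        have h3 := graph_diag P
        calc diagAut P * graphAut F = graphAut F * (graphAut F * diagAut P) * graphAut F := by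
              rw [← mul_assoc (graphAut F), graph_sq, one_mul]
          _ = graphAut F * (diagAut (tP P) * graphAut F) * graphAut F := by rw [h3]
          _ = graphAut F * diagAut (tP P) * (graphAut F * graphAut F) := by
              simp only [mul_assoc]
          _ = graphAut F * diagAut (tP P) := by rw [graph_sq, mul_one]
      rw [← mul_assoc, ← mul_assoc, h2, ← diag_mul]
      simp only [mul_assoc]
  have h2 : ∀ γ : MulAut (SL3 F), NFm γ → NFm (graphAut F * γ) := by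
    rintro γ ⟨Q, τ, rfl | rfl⟩
    · exact ⟨Q, τ, Or.inr (by rw [mul_assoc])⟩
    · refine ⟨Q, τ, Or.inl ?_⟩
      rw [← mul_assoc, ← mul_assoc, graph_sq, one_mul]
  have h3 : ∀ (σ : F ≃+* F) (γ : MulAut (SL3 F)), NFm γ → NFm (fieldAut σ * γ) := by
    rintro σ γ ⟨Q, τ, rfl | rfl⟩
    · obtain ⟨Q', hQ'⟩ := field_diag σ Q
      exact ⟨Q', σ * τ, Or.inl (by rw [← mul_assoc, hQ', mul_assoc, fieldAut_mul])⟩
    · obtain ⟨Q', hQ'⟩ := field_diag σ Q
      refine ⟨Q', σ * τ, Or.inr ?_⟩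
      rw [← mul_assoc, ← mul_assoc, field_graph, mul_assoc (graphAut F), hQ', ← fieldAut_mul]
      simp only [mul_assoc]
  obtain ⟨P, σ, rfl | rfl⟩ := hα
  · rw [mul_assoc]
    exact h1 P _ (h3 σ β hβ)
  · rw [mul_assoc, mul_assoc]
    exact h2 _ (h1 P _ (h3 σ β hβ))

theorem nf_diag (P : GL (Fin 3) F) : NFm (diagAut P) :=
  ⟨P, 1, Or.inl (by rw [fieldAut_one, mul_one])⟩

theorem nf_graph : NFm (graphAut F) :=
  ⟨1, 1, Or.inr (by rw [fieldAut_one, diag_one, mul_one, mul_one])⟩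

theorem nf_field (σ : F ≃+* F) : NFm (fieldAut σ) :=
  ⟨1, σ, Or.inl (by rw [diag_one, one_mul])⟩

theorem conj_eq (m : SL3 F) : ∃ P : GL (Fin 3) F, MulAut.conj m = diagAut P := by
  refine ⟨⟨m.1, (m⁻¹).1, ?_, ?_⟩, ?_⟩
  · exact mul_adj_self m.2
  · exact adj_mul_self m.2
  · ext g : 1
    apply Subtype.ext
    rfl

theorem AUNZ_thm : AUNZStmt := by
  intro F _ α hα
  show NFm α
  induction hα using Subgroup.closure_induction with
  | mem α h =>
    rcases h with ((h | h) | h) | h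
    · obtain ⟨m, rfl⟩ := h
      obtain ⟨P, hP⟩ := conj_eq m
      rw [hP]
      exact nf_diag P
    · obtain ⟨P, rfl⟩ := h
      exact nf_diag P
    · obtain ⟨σ, rfl⟩ := h
      exact nf_field σ
    · rw [Set.mem_singleton_iff] at h
      rw [h]
      exact nf_graph
  | one =>
    rw [← diag_one]
    exact nf_diag 1
  | mul α β _ _ h1 h2 => exact nf_mul h1 h2
  | inv α _ h1 =>
    have hd : ∀ P : GL (Fin 3) F, (diagAut P)⁻¹ = diagAut P⁻¹ := fun P => by
      rw [inv_eq_iff_mul_eq_one, diag_mul, mul_inv_cancel, diag_one]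
    have hs : ∀ σ : F ≃+* F, (fieldAut σ)⁻¹ = fieldAut σ⁻¹ := fun σ => by
      rw [inv_eq_iff_mul_eq_one, fieldAut_mul, mul_inv_cancel, fieldAut_one]
    have hg : (graphAut F)⁻¹ = graphAut F := by
      rw [inv_eq_iff_mul_eq_one, graph_sq]
    obtain ⟨P, σ, rfl | rfl⟩ := h1
    · rw [_root_.mul_inv_rev, hs, hd]
      exact nf_mul (nf_field _) (nf_diag _)
    · rw [_root_.mul_inv_rev, _root_.mul_inv_rev, hs, hd, hg]
      exact nf_mul (nf_field _) (nf_mul (nf_diag _) nf_graph)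

end Pool.Agent.H64.SCG2.AUNZ
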