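import Pool.Agent.H24.SCG2.Stmts1

/-!
# E34: the exceptional cases with `b` outer
-/

namespace Pool.Agent.H64.SCG2

open Matrix Pool.SCG

section

variable {F : Type} [Field F]

/-- The matrix of the base change. -/
def Mp (w t : F) : Matrix (Fin 3) (Fin 3) F :=
  !![(-1 - 2 * w) * t, (-1 - 2 * w) * t, (1 + 2 * w) * t;
    (2 + w) * t, (-1 - 2 * w) * t, (1 - w) * t;
    (w - 1) * t, (-1 - 2 * w) * t, (-2 - w) * t]

/-- Its transpose. -/
def Tp (w t : F) : Matrix (Fin 3) (Fin 3) F :=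
  !![(-1 - 2 * w) * t, (2 + w) * t, (w - 1) * t;
    (-1 - 2 * w) * t, (-1 - 2 * w) * t, (-1 - 2 * w) * t;
    (1 + 2 * w) * t, (1 - w) * t, (-2 - w) * t]

/-- Its inverse. -/
def Ip (w t : F) : Matrix (Fin 3) (Fin 3) F :=
  !![(1 + 2 * w) * t, (1 - w) * t, (-2 - w) * t;
    (1 + 2 * w) * t, (1 + 2 * w) * t, (1 + 2 * w) * t;
    (-1 - 2 * w) * t, (2 + w) * t, (w - 1) * t]

theorem Mp_det (w t : F) (hw : w ^ 2 + w + 1 = 0) (ht : 3 * t = 1) : (Mp w t).det = 1 := by
  simp [Mp, det_fin_three]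
  grind

theorem Mp_tr (w t : F) : (Mp w t).transpose = Tp w t := by
  ext i j
  fin_cases i <;> fin_cases j <;> rfl

theorem Mp_adj (w t : F) (hw : w ^ 2 + w + 1 = 0) (ht : 3 * t = 1) :
    adjugate (Mp w t) = Ip w t := by
  refine adj_unique (Mp_det w t hw ht) ?_
  ext i j
  fin_cases i <;> fin_cases j <;>
    simp [Mp, Ip, Matrix.mul_apply, Fin.sum_univ_three] <;> grind

theorem Mp_T (w t : F) (hw : w ^ 2 + w + 1 = 0) (ht : 3 * t = 1) :
    Tp w t * dg 1 1 1 * Mp w t = Q0 F := by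
  ext i j
  fin_cases i <;> fin_cases j <;>
    simp [Mp, Tp, dg, Q0, Matrix.mul_apply, Fin.sum_univ_three] <;> grind

theorem PhM_mk (x y z u i : F) (h : (x * u - y * z) * i = 1) : PhM !![x, y; z, u] =
    !![i * x ^ 2, i * (x * y), i * (y ^ 2 * 2⁻¹); i * (2 * x * z), i * (x * u + y * z), i * (y * u);
      i * (2 * z ^ 2), i * (2 * z * u), i * u ^ 2] := by
  have : (x * u - y * z)⁻¹ = i := inv_eq_of_mul_eq_one_right h
  simp only [PhM, Matrix.of_apply, cons_val', cons_val_zero, cons_val_one, cons_val_fin_one, this]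
  ext i j
  fin_cases i <;> fin_cases j <;> simp

/-- The image of `a`. -/
theorem key_a (w t s : F) (hw : w ^ 2 + w + 1 = 0) (ht : 3 * t = 1) (hs : (2 : F)⁻¹ = s)
    (h2 : 2 * s = 1) :
    Tp w t * Q0 F * Mp w t = Q0 F * PhM !![-2, -2 * w ^ 2; -w, 2] := by
  rw [PhM_mk _ _ _ _ (-(t * s)) (by grind), hs]
  ext i j
  fin_cases i <;> fin_cases j <;>
    simp [Mp, Tp, Q0, Matrix.mul_apply, Fin.sum_univ_three] <;> grind

/-- The image of `b`. -/
theorem key_b (w t s : F) (hw : w ^ 2 + w + 1 = 0) (ht : 3 * t = 1) (hs : (2 : F)⁻¹ = s)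
    (h2 : 2 * s = 1) :
    Tp w t * Jm F * Mp w t = Q0 F * PhM !![-2, -2; -1, 2] := by
  rw [PhM_mk _ _ _ _ (-(t * s)) (by grind), hs]
  ext i j
  fin_cases i <;> fin_cases j <;>
    simp [Mp, Tp, Q0, Jm, Matrix.mul_apply, Fin.sum_univ_three] <;> grind

/-- The image of `c`, inner. -/
theorem key_c (w t s : F) (hw : w ^ 2 + w + 1 = 0) (ht : 3 * t = 1) (hs : (2 : F)⁻¹ = s)
    (h2 : 2 * s = 1) :
    Ip w t * hQ 1 (-1) * Mp w t = PhM !![1, 4; 2, -1] := by
  have hi : ((2 : F) * 1 + (-1) ^ 2)⁻¹ = t := inv_eq_of_mul_eq_one_right (by linear_combination ht)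
  rw [PhM_mk _ _ _ _ (-(t * t)) (by linear_combination (3 * t + 1) * ht), hs, hQ, hi]
  ext i j
  fin_cases i <;> fin_cases j <;>
    simp [Mp, Ip, Matrix.mul_apply, Fin.sum_univ_three] <;> grind

/-- The image of `c`, outer. -/
theorem key_c' (w t s : F) (hw : w ^ 2 + w + 1 = 0) (ht : 3 * t = 1) (hs : (2 : F)⁻¹ = s)
    (h2 : 2 * s = 1) :
    Tp w t * ((hQ 1 2).transpose * Q0 F) * Mp w t = Q0 F * PhM !![1, 4; 2, -1] := by
  have hi : ((2 : F) * 1 + 2 ^ 2)⁻¹ = s * t :=
    inv_eq_of_mul_eq_one_right (by linear_combination ht * (2 * s) + h2)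
  have hT : (hQ (1 : F) 2).transpose * Q0 F =
      !![2 * s * t * -1, -(2 * s * t * 2), -(2 * s * t * 2);
        -(2 * s * t * 2), -(2 * s * t * 1), 2 * s * t * 2;
        -(2 * s * t * 2), 2 * s * t * 2, -(2 * s * t)] := by
    rw [hQ, hi]
    ext i j
    fin_cases i <;> fin_cases j <;>
      simp [Q0, Matrix.mul_apply, Fin.sum_univ_three] <;> ring
  rw [hT, PhM_mk _ _ _ _ (-(t * t)) (by linear_combination (3 * t + 1) * ht), hs]
  ext i j
  fin_cases i <;> fin_cases j <;>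
    simp [Mp, Tp, Q0, Matrix.mul_apply, Fin.sum_univ_three] <;> grind

/-- The image of `d * e`. -/
theorem key_d (w t : F) (hw : w ^ 2 + w + 1 = 0) (ht : 3 * t = 1) :
    Ip w t * dg w 1 (w ^ 2) * Mp w t = w • Cm F := by
  ext i j
  fin_cases i <;> fin_cases j <;>
    simp [Mp, Ip, Cm, dg, Matrix.mul_apply, Fin.sum_univ_three] <;> grind

/-- The scalars are invariant under base change. -/
theorem cj_Zs (P : SL3 F) {z : Cor F} (hz : z ∈ Zs F) : cj P z = z := by
  obtain ⟨ζ, -, hζ⟩ := hz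
  have h1 := hζ.cj_inner P
  have h2 : adjugate (P : M3 F) * dg ζ ζ ζ * (P : M3 F) = dg ζ ζ ζ := by
    have h3 : dg ζ ζ ζ = ζ • (1 : M3 F) := by
      ext i j
      fin_cases i <;> fin_cases j <;> simp [dg]
    rw [h3, Matrix.mul_smul, Matrix.smul_mul, mul_one, adj_mul_self P.2]
  rw [h2] at h1
  exact h1.ext hζ

/-- Pulling back a membership. -/
theorem mem_of_cj (P : SL3 F) (a b c d e : Cor F)
    (h : cj P e ∈ Subgroup.closure ({cj P a, cj P b, cj P c, cj P d} ∪ Zs F : Set (Cor F))) :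
    e ∈ Subgroup.closure ({a, b, c, d} ∪ Zs F : Set (Cor F)) := by
  rw [← mem_map_cj (P := P)]
  refine (Subgroup.closure_le _).2 ?_ h
  have hsub : ∀ x : Cor F, x ∈ ({a, b, c, d} ∪ Zs F : Set (Cor F)) →
      cj P x ∈ (Subgroup.closure ({a, b, c, d} ∪ Zs F : Set (Cor F))).map (cjE P).toMonoidHom :=
    fun x hx => mem_map_cj.2 (Subgroup.subset_closure hx)
  rintro x (hx | hx)
  · simp only [Set.mem_insert_iff, Set.mem_singleton_iff] at hx
    rcases hx with rfl | rfl | rfl | rfl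
    · exact hsub a (Or.inl (by simp))
    · exact hsub b (Or.inl (by simp))
    · exact hsub c (Or.inl (by simp))
    · exact hsub d (Or.inl (by simp))
  · have := hsub x (Or.inr hx)
    rwa [cj_Zs P hx] at this

end

section

variable {K : Type} [CommRing K]

theorem gbc : (!![-2, -2; -1, 2] : Matrix (Fin 2) (Fin 2) K) * !![1, 4; 2, -1] =
    !![-6, -6; 3, -6] := by
  ext i j
  fin_cases i <;> fin_cases j <;> simp <;> ring

theorem gp2 : (!![-6, -6; 3, -6] : Matrix (Fin 2) (Fin 2) K) ^ 2 = !![18, 72; -36, 18] := by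
  rw [pow_two]
  ext i j
  fin_cases i <;> fin_cases j <;> simp <;> ring

theorem gp3 : (!![-6, -6; 3, -6] : Matrix (Fin 2) (Fin 2) K) ^ 3 =
    !![108, -540; 270, 108] := by
  rw [pow_succ, gp2]
  ext i j
  fin_cases i <;> fin_cases j <;> simp <;> ring

theorem gp4 : (!![-6, -6; 3, -6] : Matrix (Fin 2) (Fin 2) K) ^ 4 =
    !![-2268, 2592; -1296, -2268] := by
  rw [pow_succ, gp3]
  ext i j
  fin_cases i <;> fin_cases j <;> simp <;> ring

theorem gp5 : (!![-6, -6; 3, -6] : Matrix (Fin 2) (Fin 2) K) ^ 5 =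
    !![21384, -1944; 972, 21384] := by
  rw [pow_succ, gp4]
  ext i j
  fin_cases i <;> fin_cases j <;> simp <;> ring

end

/-- The exceptional cases with `b` outer: reduction to the prime field. -/
theorem E34_thm (hELM : ELMStmt) (hPAR : PARStmt) : E34Stmt := by
  intro F _ _ hF a b c d e σ hσ ha hb hd he hc
  obtain ⟨p, hp, hchar, hp6, h2, h3, -, -, w0, hw0⟩ := hPAR F hF
  have : Fact p.Prime := ⟨hp⟩
  have : CharP F p := hchar
  set f : ZMod p →+* F := ZMod.castHom (dvd_refl p) F with hf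
  set w : F := σ ^ 2 with hwdef
  have hσ3 : σ ^ 3 = 1 := by linear_combination (σ - 1) * hσ
  have hw : w ^ 2 + w + 1 = 0 := by rw [hwdef]; linear_combination hσ + σ * hσ3
  have hw2 : w ^ 2 = σ := by rw [hwdef]; linear_combination σ * hσ3
  have hσi : σ⁻¹ = w := inv_eq_of_mul_eq_one_right (by rw [hwdef]; linear_combination hσ3)
  have hw3 : w ^ 3 = 1 := by linear_combination (w - 1) * hw
  obtain ⟨w', hw', hfw⟩ : ∃ w' : ZMod p, w' ^ 2 + w' + 1 = 0 ∧ f w' = w := by
    have hv : f w0 ^ 2 + f w0 + 1 = 0 := by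
      have := congrArg f hw0
      simpa using this
    have hm : (w - f w0) * (w - f w0 ^ 2) = 0 := by
      linear_combination hw - w * hv + (f w0 - 1) * hv
    rcases mul_eq_zero.1 hm with h | h
    · exact ⟨w0, hw0, (sub_eq_zero.1 h).symm⟩
    · refine ⟨w0 ^ 2, by linear_combination (w0 ^ 2 - w0 + 1) * hw0, ?_⟩
      rw [map_pow]; exact (sub_eq_zero.1 h).symm
  -- the numbers 2, 3, 5 are units modulo `p`
  have hp7 : 7 ≤ p := by
    have := hp.two_le
    omega
  have hnz : ∀ n : ℕ, 0 < n → n < 7 → (n : ZMod p) ≠ 0 := by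
    intro n hn hn7 h0
    have := Nat.le_of_dvd hn ((ZMod.natCast_eq_zero_iff n p).1 h0)
    omega
  have z2 : (2 : ZMod p) ≠ 0 := by exact_mod_cast hnz 2 (by norm_num) (by norm_num)
  have z3 : (3 : ZMod p) ≠ 0 := by exact_mod_cast hnz 3 (by norm_num) (by norm_num)
  have z5 : (5 : ZMod p) ≠ 0 := by exact_mod_cast hnz 5 (by norm_num) (by norm_num)
  -- the base change
  set t : F := (3 : F)⁻¹ with ht'
  have ht : 3 * t = 1 := mul_inv_cancel₀ h3
  obtain ⟨s, hs⟩ : ∃ s : F, (2 : F)⁻¹ = s := ⟨_, rfl⟩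
  have hs2 : 2 * s = 1 := by rw [← hs]; exact mul_inv_cancel₀ h2
  let P : SL3 F := ⟨Mp w t, Mp_det w t hw ht⟩
  have hPm : (P : M3 F) = Mp w t := rfl
  have ha' : Is (cj P a) true (Q0 F * PhM !![-2, -2 * w ^ 2; -w, 2]) := by
    have := ha.cj_outer P
    rwa [hPm, Mp_tr, key_a w t s hw ht hs hs2] at this
  have hb' : Is (cj P b) true (Q0 F * PhM !![-2, -2; -1, 2]) := by
    have := hb.cj_outer P
    rwa [hPm, Mp_tr, key_b w t s hw ht hs hs2] at this
  have hc' : Is (cj P c) false (PhM !![1, 4; 2, -1]) ∨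
      Is (cj P c) true (Q0 F * PhM !![1, 4; 2, -1]) := by
    rcases hc with hc | hc
    · left
      have := hc.cj_inner P
      rwa [hPm, Mp_adj w t hw ht, key_c w t s hw ht hs hs2] at this
    · right
      have := hc.cj_outer P
      rwa [hPm, Mp_tr, key_c' w t s hw ht hs hs2] at this
  have he' : Is (cj P e) true (Q0 F) := by
    have := he.cj_outer P
    rwa [hPm, Mp_tr, Mp_T w t hw ht] at this
  have hde : Is (d * e) false (dg w 1 (w ^ 2)) := by
    have h1 : dg σ 1 σ⁻¹ * dg σ⁻¹ 1 σ = 1 := by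
      have h0 : σ ≠ 0 := by
        intro h0
        rw [h0] at hσ3
        simp at hσ3
      rw [dg_mul, mul_inv_cancel₀ h0, inv_mul_cancel₀ h0, one_mul, dg_one]
    have := hd.mul_outer' he h1
    rw [dg_transpose, dg_mul, mul_one, mul_one, mul_one, hσi] at this
    rw [hw2]
    exact this
  have hde' : Is (cj P d * cj P e) false (w • Cm F) := by
    rw [← cj_mul]
    have := hde.cj_inner P
    rwa [hPm, Mp_adj w t hw ht, key_d w t hw ht] at this
  have hdd : cj P d * cj P d = 1 := by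
    rw [← cj_mul, (outer_sq_iff hd).2 (dg_transpose _ _ _), cj_one]
  have mapM : ∀ x y z u : ZMod p, (!![x, y; z, u] : M2 (ZMod p)).map f =
      !![f x, f y; f z, f u] := by
    intro x y z u
    ext i j
    fin_cases i <;> fin_cases j <;> rfl
  have f2 : f 2 = 2 := map_ofNat f 2
  have f4 : f 4 = 4 := map_ofNat f 4
  have hga : (!![-2, -2 * w' ^ 2; -w', 2] : M2 (ZMod p)).map f = !![-2, -2 * w ^ 2; -w, 2] := by
    rw [mapM]
    simp only [map_neg, map_mul, map_pow, f2, hfw]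
  have hgb : (!![-2, -2; -1, 2] : M2 (ZMod p)).map f = !![-2, -2; -1, 2] := by
    rw [mapM]
    simp only [map_neg, map_one, f2]
  have hgc : (!![1, 4; 2, -1] : M2 (ZMod p)).map f = !![1, 4; 2, -1] := by
    rw [mapM]
    simp only [map_neg, map_one, f2, f4]
  have nz : ∀ i j l : ℕ, (2 : ZMod p) ^ i * 3 ^ j * 5 ^ l ≠ 0 := fun i j l =>
    mul_ne_zero (mul_ne_zero (pow_ne_zero _ z2) (pow_ne_zero _ z3)) (pow_ne_zero _ z5)
  refine mem_of_cj P a b c d e ?_
  refine hELM p F hp6 !![-2, -2 * w' ^ 2; -w', 2] !![-2, -2; -1, 2] !![1, 4; 2, -1]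
    ?_ ?_ ?_ ?_ ?_ ?_ ?_ _ _ _ _ _ ?_ ?_ ?_ hdd he' ⟨w, hw3, hde'⟩
  · rw [det_fin_two_of]
    intro h
    exact nz 1 1 0 (by linear_combination (-1) * h - 2 * (w' - 1) * hw')
  · rw [det_fin_two_of]
    intro h
    exact nz 1 1 0 (by linear_combination (-1) * h)
  · rw [det_fin_two_of]
    intro h
    exact nz 0 2 0 (by linear_combination (-1) * h)
  · rw [gbc]
    intro h
    simp [det_fin_two] at h
    exact nz 2 4 0 (by grind)
  · rw [gbc, Matrix.trace_fin_two]
    intro h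
    simp at h
    exact nz 2 1 0 (by grind)
  · rw [gbc]
    intro h
    have h1 := congrFun (congrFun h 0) 0
    simp [Matrix.mul_apply, Fin.sum_univ_two, adjugate_fin_two] at h1
    have h2 : 6 * (w' - w' ^ 2) = 0 := by linear_combination h1
    exact nz 2 3 0 (by linear_combination (-6 * (w' - w' ^ 2)) * h2 + 36 * (w' ^ 2 - 3 * w' + 3) * hw')
  · intro k c' hk1 hk5 h
    rw [gbc] at h
    have h1 := congrFun (congrFun h 1) 0
    interval_cases k
    · rw [pow_one] at h1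
      simp at h1
      exact nz 0 1 0 (by linear_combination h1)
    · rw [gp2] at h1
      simp at h1
      exact nz 2 2 0 (by linear_combination h1)
    · rw [gp3] at h1
      simp at h1
      exact nz 1 3 1 (by linear_combination h1)
    · rw [gp4] at h1
      simp at h1
      exact nz 4 4 0 (by linear_combination h1)
    · rw [gp5] at h1
      simp at h1
      exact nz 2 5 0 (by linear_combination h1)
  · right
    rw [hga]; exact ha'
  · right
    rw [hgb]; exact hb'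
  · rw [hgc]; exact hc'

end Pool.Agent.H64.SCG2
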