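import Pool.Agent.H24.SCG2.Base3

/-!
# Q7I: the third intersection condition for `q = 7`
-/

namespace Pool.Agent.H64.SCG2.Q7I

open Matrix Pool.SCG

section

variable {F : Type} [Field F]

/-- The swap. -/
def Cw (F : Type) [Field F] : Matrix (Fin 3) (Fin 3) F := !![-1, 0, 0; 0, 0, 1; 0, 1, 0]

theorem blk_C : blk (-1 : F) !![0, 1; 1, 0] = Cw F := by
  ext i j
  fin_cases i <;> fin_cases j <;> simp [blk, Cw]

theorem Cw_sq : Cw F * Cw F = 1 := by
  ext i j
  fin_cases i <;> fin_cases j <;> simp [Cw]

theorem Cw_tr : (Cw F).transpose = Cw F := by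
  ext i j
  fin_cases i <;> fin_cases j <;> rfl

theorem Cw_dg (x u v : F) : Cw F * dg x u v = dg x v u * Cw F := by
  ext i j
  fin_cases i <;> fin_cases j <;> simp [Cw, dg]

theorem Cw_det : (Cw F).det = 1 := by
  simp [Cw, det_fin_three]

/-- The first factor. -/
def Es (s : Bool) : Matrix (Fin 3) (Fin 3) F := if s then dg (-1) 2 2 else 1

/-- The normal form of the elements of the first group. -/
def Fm (x : MulAut (SL3 F)) : Prop := ∃ (s : Bool) (u v : F) (K : Matrix (Fin 3) (Fin 3) F),
  u ^ 3 = 1 ∧ v ^ 3 = 1 ∧ (K = 1 ∨ K = Cw F) ∧ GIs x s (Es s * (dg 1 u v * K))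

theorem CK {K : Matrix (Fin 3) (Fin 3) F} (hK : K = 1 ∨ K = Cw F) :
    Cw F * K = 1 ∨ Cw F * K = Cw F := by
  rcases hK with rfl | rfl
  · exact Or.inr (mul_one _)
  · exact Or.inl Cw_sq

theorem dg_one' : (1 : Matrix (Fin 3) (Fin 3) F) = dg 1 1 1 := dg_one.symm

/-- Left multiplication by `a`. -/
theorem fm_a (h7 : (7 : F) = 0) {a x : MulAut (SL3 F)} (ha : GIs a true (dg (-1) 2 2))
    (hx : Fm x) : Fm (a * x) := by
  obtain ⟨s, u, v, K, hu, hv, hK, h⟩ := hx
  cases s with
  | false =>
    refine ⟨true, u, v, K, hu, hv, hK, ?_⟩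
    have h' : GIs x false (dg 1 u v * K) := by simpa [Es] using h
    have := ha.mul_inner h'
    simpa [Es] using this
  | true =>
    refine ⟨false, u, v, K, hu, hv, hK, ?_⟩
    have h1 : dg (-1 : F) 2 2 * dg (-1) 4 4 = 1 := by
      rw [dg_mul, dg_one']
      congr 1
      · ring
      · linear_combination h7
      · linear_combination h7
    have := ha.mul_outer h h1
    have e : (dg (-1 : F) 4 4).transpose * (Es true * (dg 1 u v * K)) =
        Es false * (dg 1 u v * K) := by
      rw [dg_transpose, ← mul_assoc]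
      congr 1
      simp only [Es, if_true, Bool.false_eq_true, if_false]
      rw [dg_mul, dg_one']
      congr 1
      · ring
      · linear_combination h7
      · linear_combination h7
    rw [e] at this
    exact this

/-- Left multiplication by `b`. -/
theorem fm_b (h7 : (7 : F) = 0) {b x : MulAut (SL3 F)} (hb : GIs b true (dg (-1) 2 4))
    (hx : Fm x) : Fm (b * x) := by
  obtain ⟨s, u, v, K, hu, hv, hK, h⟩ := hx
  cases s with
  | false =>
    refine ⟨true, u, 2 * v, K, hu, ?_, hK, ?_⟩
    · linear_combination 8 * hv + h7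
    have h' : GIs x false (dg 1 u v * K) := by simpa [Es] using h
    have := hb.mul_inner h'
    have e : dg (-1 : F) 2 4 * (dg 1 u v * K) = Es true * (dg 1 u (2 * v) * K) := by
      simp only [Es, if_true]
      rw [← mul_assoc, ← mul_assoc, dg_mul, dg_mul]
      congr 2
      ring
    rw [e] at this
    exact this
  | true =>
    refine ⟨false, u, 4 * v, K, hu, ?_, hK, ?_⟩
    · linear_combination 64 * hv + 9 * h7
    have h1 : dg (-1 : F) 2 4 * dg (-1) 4 2 = 1 := by
      rw [dg_mul, dg_one']
      congr 1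
      · ring
      · linear_combination h7
      · linear_combination h7
    have := hb.mul_outer h h1
    have e : (dg (-1 : F) 4 2).transpose * (Es true * (dg 1 u v * K)) =
        Es false * (dg 1 u (4 * v) * K) := by
      simp only [Es, if_true, Bool.false_eq_true, if_false, one_mul]
      rw [dg_transpose, ← mul_assoc, ← mul_assoc, dg_mul, dg_mul]
      congr 2
      · ring
      · linear_combination u * h7
      · ring
    rw [e] at this
    exact this

/-- Left multiplication by `c`. -/
theorem fm_c {c x : MulAut (SL3 F)} (hc : GIs c false (Cw F)) (hx : Fm x) : Fm (c * x) := by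
  obtain ⟨s, u, v, K, hu, hv, hK, h⟩ := hx
  have e : Cw F * (Es s * (dg 1 u v * K)) = Es s * (dg 1 v u * (Cw F * K)) := by
    have h1 : Cw F * Es s = Es s * Cw F := by
      cases s
      · simp [Es]
      · simp only [Es, if_true]
        exact Cw_dg _ _ _
    calc Cw F * (Es s * (dg 1 u v * K)) = (Cw F * Es s) * (dg 1 u v * K) := by
          rw [mul_assoc]
      _ = Es s * ((Cw F * dg 1 u v) * K) := by rw [h1]; simp only [mul_assoc]
      _ = _ := by rw [Cw_dg]; simp only [mul_assoc]
  refine ⟨s, v, u, Cw F * K, hv, hu, CK hK, ?_⟩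
  rw [← e]
  cases s with
  | false => exact hc.mul_inner h
  | true =>
    have := hc.mul_outer h Cw_sq
    rw [Cw_tr] at this
    simpa using this

/-- Involutions. -/
theorem inv_a (h7 : (7 : F) = 0) {a : MulAut (SL3 F)} (ha : GIs a true (dg (-1) 2 2)) :
    a * a = 1 := by
  have h1 : dg (-1 : F) 2 2 * dg (-1) 4 4 = 1 := by
    rw [dg_mul, dg_one']
    congr 1
    · ring
    · linear_combination h7
    · linear_combination h7
  have := ha.mul_outer ha h1
  rw [dg_transpose, dg_mul] at this
  refine this.ext gis_one 1 ?_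
  rw [one_smul, dg_one']
  congr 1
  · ring
  · linear_combination -h7
  · linear_combination -h7

theorem inv_b (h7 : (7 : F) = 0) {b : MulAut (SL3 F)} (hb : GIs b true (dg (-1) 2 4)) :
    b * b = 1 := by
  have h1 : dg (-1 : F) 2 4 * dg (-1) 4 2 = 1 := by
    rw [dg_mul, dg_one']
    congr 1
    · ring
    · linear_combination h7
    · linear_combination h7
  have := hb.mul_outer hb h1
  rw [dg_transpose, dg_mul] at this
  refine this.ext gis_one 1 ?_
  rw [one_smul, dg_one']
  congr 1
  · ring
  · linear_combination -h7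
  · linear_combination -h7

theorem inv_inner {c : MulAut (SL3 F)} {A : Matrix (Fin 3) (Fin 3) F} (hc : GIs c false A)
    (hA : A * A = 1) : c * c = 1 := by
  have := hc.mul_inner hc
  rw [hA] at this
  exact this.ext gis_one 1 (by rw [one_smul])

theorem inv_of_sq {x : MulAut (SL3 F)} (h : x * x = 1) : x⁻¹ = x := inv_eq_of_mul_eq_one_right h

theorem fm_one : Fm (1 : MulAut (SL3 F)) := by
  refine ⟨false, 1, 1, 1, one_pow _, one_pow _, Or.inl rfl, ?_⟩
  have : Es false * (dg 1 1 1 * 1) = (1 : Matrix (Fin 3) (Fin 3) F) := by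
    simp [Es, dg_one]
  rw [this]
  exact gis_one

/-- The first group. -/
theorem fm_all (h7 : (7 : F) = 0) {a b c : MulAut (SL3 F)} (ha : GIs a true (dg (-1) 2 2))
    (hb : GIs b true (dg (-1) 2 4)) (hc : GIs c false (Cw F)) {x : MulAut (SL3 F)}
    (hx : x ∈ Subgroup.closure ({a, b, c} : Set (MulAut (SL3 F)))) : Fm x := by
  have key : ∀ y ∈ ({a, b, c} : Set (MulAut (SL3 F))), y⁻¹ = y ∧ ∀ x, Fm x → Fm (y * x) := by
    intro y hy
    simp only [Set.mem_insert_iff, Set.mem_singleton_iff] at hy
    rcases hy with rfl | rfl | rfl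
    · exact ⟨inv_of_sq (inv_a h7 ha), fun x hx => fm_a h7 ha hx⟩
    · exact ⟨inv_of_sq (inv_b h7 hb), fun x hx => fm_b h7 hb hx⟩
    · exact ⟨inv_of_sq (inv_inner hc Cw_sq), fun x hx => fm_c hc hx⟩
  induction hx using Subgroup.closure_induction_left with
  | one => exact fm_one
  | mul_left y hy x _ h => exact (key y hy).2 x h
  | inv_mul_cancel y hy x _ h =>
    rw [(key y hy).1]
    exact (key y hy).2 x h

/-- Determinant one or minus one. -/
def Dt (x : MulAut (SL3 F)) : Prop := ∃ (s : Bool) (A : Matrix (Fin 3) (Fin 3) F),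
  GIs x s A ∧ (A.det = 1 ∨ A.det = -1)

theorem dt_mul {x y : MulAut (SL3 F)} (hx : Dt x) (hy : Dt y) : Dt (x * y) := by
  obtain ⟨s, A, hA, dA⟩ := hx
  obtain ⟨t, B, hB, dB⟩ := hy
  cases t with
  | false =>
    refine ⟨s, A * B, hA.mul_inner hB, ?_⟩
    rw [det_mul]
    rcases dA with h1 | h1 <;> rcases dB with h2 | h2 <;> rw [h1, h2] <;> simp
  | true =>
    have hAd : IsUnit A.det := by
      rcases dA with h1 | h1 <;> rw [h1]
      · exact isUnit_one
      · exact isUnit_one.neg
    have h1 : A * A⁻¹ = 1 := Matrix.mul_nonsing_inv A hAd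
    refine ⟨!s, (A⁻¹).transpose * B, hA.mul_outer hB h1, ?_⟩
    have h2 : A.det * (A⁻¹).det = 1 := by rw [← det_mul, h1, det_one]
    rw [det_mul, det_transpose]
    have h3 : (A⁻¹).det = 1 ∨ (A⁻¹).det = -1 := by
      rcases dA with h4 | h4 <;> rw [h4] at h2
      · left; linear_combination h2
      · right; linear_combination -h2
    rcases h3 with h4 | h4 <;> rcases dB with h5 | h5 <;> rw [h4, h5] <;> simp

theorem dt_all {b c d x : MulAut (SL3 F)} (hb : Dt b) (hc : Dt c) (hd : Dt d)
    (ib : b⁻¹ = b) (ic : c⁻¹ = c) (id : d⁻¹ = d)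
    (hx : x ∈ Subgroup.closure ({b, c, d} : Set (MulAut (SL3 F)))) : Dt x := by
  have key : ∀ y ∈ ({b, c, d} : Set (MulAut (SL3 F))), y⁻¹ = y ∧ Dt y := by
    intro y hy
    simp only [Set.mem_insert_iff, Set.mem_singleton_iff] at hy
    rcases hy with rfl | rfl | rfl
    · exact ⟨ib, hb⟩
    · exact ⟨ic, hc⟩
    · exact ⟨id, hd⟩
  induction hx using Subgroup.closure_induction_left with
  | one => exact ⟨false, 1, gis_one, Or.inl det_one⟩
  | mul_left y hy x _ h => exact dt_mul (key y hy).2 h
  | inv_mul_cancel y hy x _ h =>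
    rw [(key y hy).1]
    exact dt_mul (key y hy).2 h

/-- The elements of the second group, inner case. -/
theorem mem_inner (h7 : (7 : F) = 0) {b c y : MulAut (SL3 F)} (hb : GIs b true (dg (-1) 2 4))
    (hc : GIs c false (Cw F)) {u v : F} {K : Matrix (Fin 3) (Fin 3) F} (hu : u ^ 3 = 1)
    (huv : u * v = 1) (hK : K = 1 ∨ K = Cw F) (hy : GIs y false (dg 1 u v * K)) :
    y ∈ Subgroup.closure ({b, c} : Set (MulAut (SL3 F))) := by
  have mb : b ∈ Subgroup.closure ({b, c} : Set (MulAut (SL3 F))) :=
    Subgroup.subset_closure (by simp)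
  have mc : c ∈ Subgroup.closure ({b, c} : Set (MulAut (SL3 F))) :=
    Subgroup.subset_closure (by simp)
  -- the square of `b * c`
  have ht : GIs (b * c * (b * c)) false (dg 1 2 4) := by
    have h1 := hb.mul_inner hc
    have h2 : dg (-1 : F) 2 4 * Cw F * (Cw F * dg (-1) 4 2) = 1 := by
      calc dg (-1 : F) 2 4 * Cw F * (Cw F * dg (-1) 4 2)
          = dg (-1 : F) 2 4 * (Cw F * Cw F) * dg (-1) 4 2 := by simp only [mul_assoc]
        _ = dg (-1 : F) 2 4 * dg (-1) 4 2 := by rw [Cw_sq, mul_one]
        _ = 1 := by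
          rw [dg_mul, dg_one']
          congr 1
          · ring
          · linear_combination h7
          · linear_combination h7
    have h3 := h1.mul_outer h1 h2
    have e : (Cw F * dg (-1) 4 2).transpose * (dg (-1) 2 4 * Cw F) = dg (1 : F) 2 4 := by
      rw [transpose_mul, Cw_tr, dg_transpose]
      calc dg (-1 : F) 4 2 * Cw F * (dg (-1) 2 4 * Cw F)
          = dg (-1 : F) 4 2 * (Cw F * dg (-1) 2 4) * Cw F := by simp only [mul_assoc]
        _ = dg (-1 : F) 4 2 * (dg (-1) 4 2 * (Cw F * Cw F)) := by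
            rw [Cw_dg]; simp only [mul_assoc]
        _ = dg (1 : F) 2 4 := by
            rw [Cw_sq, mul_one, dg_mul]
            congr 1
            · ring
            · linear_combination 2 * h7
            · ring
    rw [e] at h3
    exact h3
  set t := b * c * (b * c) with htdef
  have mt : t ∈ Subgroup.closure ({b, c} : Set (MulAut (SL3 F))) :=
    mul_mem (mul_mem mb mc) (mul_mem mb mc)
  have ht2 : GIs (t * t) false (dg 1 4 2) := by
    have := ht.mul_inner ht
    rw [dg_mul] at this
    have e : dg ((1 : F) * 1) (2 * 2) (4 * 4) = dg 1 4 2 := by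
      congr 1
      · ring
      · ring
      · linear_combination 2 * h7
    rwa [e] at this
  -- an element of the group with the diagonal matrix
  obtain ⟨g, mg, hg⟩ : ∃ g ∈ Subgroup.closure ({b, c} : Set (MulAut (SL3 F))),
      GIs g false (dg 1 u v) := by
    have hroots : (u - 1) * (u - 2) * (u - 4) = 0 := by
      linear_combination hu + (-u ^ 2 + 2 * u - 1) * h7
    rcases mul_eq_zero.1 hroots with h | h
    · rcases mul_eq_zero.1 h with h | h
      · have hu1 : u = 1 := by linear_combination h
        have hv1 : v = 1 := by rw [hu1] at huv; linear_combination huv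
        exact ⟨1, one_mem _, by rw [hu1, hv1, dg_one]; exact gis_one⟩
      · have hu1 : u = 2 := by linear_combination h
        have hv1 : v = 4 := by rw [hu1] at huv; linear_combination 4 * huv - v * h7
        exact ⟨t, mt, by rw [hu1, hv1]; exact ht⟩
    · have hu1 : u = 4 := by linear_combination h
      have hv1 : v = 2 := by rw [hu1] at huv; linear_combination 2 * huv - v * h7
      exact ⟨t * t, mul_mem mt mt, by rw [hu1, hv1]; exact ht2⟩
  rcases hK with rfl | rfl
  · rw [mul_one] at hy
    rw [hy.ext hg 1 (by rw [one_smul])]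
    exact mg
  · have h1 := hg.mul_inner hc
    rw [hy.ext h1 1 (by rw [one_smul])]
    exact mul_mem mg mc

end

theorem Q7I_thm : Q7IStmt := by
  intro F _ _ h7c a b c d hG x hx1 hx2
  have : Fintype F := Fintype.ofFinite F
  have hcard : Fintype.card F = 7 := by rw [Fintype.card_eq_nat_card, h7c]
  have h7 : (7 : F) = 0 := by
    have := FiniteField.cast_card_eq_zero F
    rw [hcard] at this
    exact_mod_cast this
  have h2 : (2 : F) ≠ 0 := by
    intro h
    have : (1 : F) = 0 := by linear_combination h7 - 3 * h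
    exact one_ne_zero this
  obtain ⟨ha, hb, hc, hd⟩ := hG
  rw [blk_C] at hc
  -- the two descriptions
  have hF := fm_all h7 ha hb hc hx1
  have hdd : (!![-3, 4, 0; -2, 3, 0; 0, 0, -1] : Matrix (Fin 3) (Fin 3) F) *
      !![-3, 4, 0; -2, 3, 0; 0, 0, -1] = 1 := by
    ext i j
    fin_cases i <;> fin_cases j <;> simp <;> ring
  have hD : Dt x := by
    refine dt_all ⟨true, _, hb, Or.inr ?_⟩ ⟨false, _, hc, Or.inl Cw_det⟩ ⟨false, _, hd, Or.inl ?_⟩
      (inv_of_sq (inv_b h7 hb)) (inv_of_sq (inv_inner hc Cw_sq)) (inv_of_sq (inv_inner hd hdd)) hx2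
    · rw [dg_det]
      linear_combination -h7
    · simp [det_fin_three]
      ring
  obtain ⟨s, u, v, K, hu, hv, hK, h⟩ := hF
  obtain ⟨s', A, hA, hdA⟩ := hD
  obtain ⟨hss, l, hl, hAl⟩ := h.uniq hA
  have hKd : K.det = 1 := by
    rcases hK with rfl | rfl
    · exact det_one
    · exact Cw_det
  have hl6 : l ^ 6 = 1 := by
    have := FiniteField.pow_card_sub_one_eq_one l hl
    rwa [hcard] at this
  have hl3 : l ^ 3 = 1 ∨ l ^ 3 = -1 := by
    have : (l ^ 3 - 1) * (l ^ 3 + 1) = 0 := by linear_combination hl6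
    rcases mul_eq_zero.1 this with h | h
    · left; linear_combination h
    · right; linear_combination h
  have huv3 : (u * v) ^ 3 = 1 := by rw [mul_pow, hu, hv, one_mul]
  have hdet : A.det = l ^ 3 * ((Es s : Matrix (Fin 3) (Fin 3) F).det * (u * v)) := by
    rw [hAl, det_smul, Fintype.card_fin, det_mul, det_mul, dg_det, hKd]
    ring
  have hdet2 : (Es s : Matrix (Fin 3) (Fin 3) F).det * (u * v) = 1 ∨
      (Es s : Matrix (Fin 3) (Fin 3) F).det * (u * v) = -1 := by
    rcases hl3 with h1 | h1 <;> rcases hdA with h3 | h3 <;> rw [h1, h3] at hdet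
    · left; linear_combination -hdet
    · right; linear_combination -hdet
    · right; linear_combination hdet
    · left; linear_combination hdet
  cases s with
  | false =>
    have hE : (Es false : Matrix (Fin 3) (Fin 3) F).det = 1 := by simp [Es]
    rw [hE, one_mul] at hdet2
    have huv : u * v = 1 := by
      rcases hdet2 with h1 | h1
      · exact h1
      · exfalso
        rw [h1] at huv3
        exact h2 (by linear_combination -huv3)
    have h' : GIs x false (dg 1 u v * K) := by simpa [Es] using h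
    exact mem_inner h7 hb hc hu huv hK h'
  | true =>
    have hE : (Es true : Matrix (Fin 3) (Fin 3) F).det = -4 := by
      simp only [Es, if_true]
      rw [dg_det]
      ring
    rw [hE] at hdet2
    have huv : u * v = 2 := by
      rcases hdet2 with h1 | h1
      · exfalso
        have h4 : (-4 * (u * v)) ^ 3 = 1 := by rw [h1, one_pow]
        exact h2 (by linear_combination (-1) * h4 - 64 * huv3 - 9 * h7)
      · linear_combination (-2) * h1 + (-(u * v)) * h7
    obtain ⟨s2, u2, v2, K2, hu2, hv2, hK2, hy⟩ := fm_b h7 hb ⟨true, u, v, K, hu, hv, hK, h⟩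
    have h1 : dg (-1 : F) 2 4 * dg (-1) 4 2 = 1 := by
      rw [dg_mul, dg_one']
      congr 1
      · ring
      · linear_combination h7
      · linear_combination h7
    have h3 := hb.mul_outer h h1
    have e : (dg (-1 : F) 4 2).transpose * (Es true * (dg 1 u v * K)) =
        dg 1 u (4 * v) * K := by
      simp only [Es, if_true]
      rw [dg_transpose, ← mul_assoc, ← mul_assoc, dg_mul, dg_mul]
      congr 2
      · ring
      · linear_combination u * h7
      · ring
    rw [e] at h3
    have h4 : b * x ∈ Subgroup.closure ({b, c} : Set (MulAut (SL3 F))) :=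
      mem_inner h7 hb hc hu (by linear_combination 4 * huv + h7) hK h3
    have h5 : x = b * (b * x) := by rw [← mul_assoc, inv_b h7 hb, one_mul]
    rw [h5]
    exact mul_mem (Subgroup.subset_closure (by simp)) h4

end Pool.Agent.H64.SCG2.Q7I
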