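import Pool.Agent.H24.SCG2.Stmts4
import Pool.Agent.H24.SCG2.Base3

/-!
Project SCG2, module R3G: generation for `q = 3`.
-/

set_option autoImplicit false

namespace Pool.SCG.R3G

open Matrix

variable {F : Type*} [Field F]

/-- matrices over the prime field -/
abbrev Z3 := Matrix (Fin 3) (Fin 3) (ZMod 3)

/-- the form of `a` -/
abbrev A3 : Z3 := !![0, 0, 1; 0, 1, 0; 1, 0, 0]
/-- the matrix of `b` -/
abbrev B3 : Z3 := !![1, 0, 0; 0, 2, 0; 0, 0, 2]
/-- the matrix of `c` -/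
abbrev C3 : Z3 := !![2, 0, 0; 2, 1, 0; 2, 2, 2]
/-- the form of `d` -/
abbrev D3 : Z3 := !![2, 0, 0; 0, 1, 0; 0, 0, 2]

theorem step_in {φ : ZMod 3 →+* F} {α β : MulAut (SL3 F)} {s : Bool} {M N K : Z3}
    (hα : GIs α s (M.map φ)) (hβ : GIs β false (N.map φ)) (h : M * N = K) :
    GIs (α * β) s (K.map φ) := by
  have h1 := hα.mul_inner hβ
  rwa [← Matrix.map_mul, h] at h1

theorem step_out {φ : ZMod 3 →+* F} {α β : MulAut (SL3 F)} {s : Bool} {M M' N K : Z3}
    (hα : GIs α s (M.map φ)) (hβ : GIs β true (N.map φ)) (h1 : M * M' = 1)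
    (h : M'.transpose * N = K) : GIs (α * β) (!s) (K.map φ) := by
  have h2 : M.map φ * M'.map φ = 1 := by
    rw [← Matrix.map_mul, h1, Matrix.map_one _ φ.map_zero φ.map_one]
  have h3 := hα.mul_outer hβ h2
  rwa [← Matrix.transpose_map, ← Matrix.map_mul, h] at h3

theorem wE12 {φ : ZMod 3 →+* F} {a b c d : MulAut (SL3 F)} (ha : GIs a true (A3.map φ))
    (hb : GIs b false (B3.map φ)) (hc : GIs c false (C3.map φ)) (hd : GIs d true (D3.map φ)) :
    GIs (a * b * d * c * b * c * b * a * c * b * d) false ((!![1, 1, 0; 0, 1, 0; 0, 0, 1] : Z3).map φ) := by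
  have g1 := step_in (K := !![0, 0, 2; 0, 2, 0; 1, 0, 0]) ha hb (by decide)
  have g2 := step_out (M' := !![0, 0, 1; 0, 2, 0; 2, 0, 0]) (K := !![0, 0, 1; 0, 2, 0; 2, 0, 0]) g1 hd (by decide) (by decide)
  have g3 := step_in (K := !![2, 2, 2; 1, 2, 0; 1, 0, 0]) g2 hc (by decide)
  have g4 := step_in (K := !![2, 1, 1; 1, 1, 0; 1, 0, 0]) g3 hb (by decide)
  have g5 := step_in (K := !![2, 0, 2; 1, 1, 0; 2, 0, 0]) g4 hc (by decide)
  have g6 := step_in (K := !![2, 0, 1; 1, 2, 0; 2, 0, 0]) g5 hb (by decide)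
  have g7 := step_out (M' := !![0, 0, 2; 0, 2, 2; 1, 0, 2]) (K := !![1, 0, 0; 0, 2, 0; 2, 2, 2]) g6 ha (by decide) (by decide)
  have g8 := step_in (K := !![2, 0, 0; 1, 2, 0; 0, 0, 1]) g7 hc (by decide)
  have g9 := step_in (K := !![2, 0, 0; 1, 1, 0; 0, 0, 2]) g8 hb (by decide)
  have g10 := step_out (M' := !![2, 0, 0; 1, 1, 0; 0, 0, 2]) (K := !![1, 1, 0; 0, 1, 0; 0, 0, 1]) g9 hd (by decide) (by decide)
  exact g10

theorem wE23 {φ : ZMod 3 →+* F} {a b c d : MulAut (SL3 F)} (ha : GIs a true (A3.map φ))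
    (hb : GIs b false (B3.map φ)) (hc : GIs c false (C3.map φ)) (hd : GIs d true (D3.map φ)) :
    GIs (a * b * a * b * d * c * b * c * b * c * d) false ((!![1, 0, 0; 0, 1, 1; 0, 0, 1] : Z3).map φ) := by
  have g1 := step_in (K := !![0, 0, 2; 0, 2, 0; 1, 0, 0]) ha hb (by decide)
  have g2 := step_out (M' := !![0, 0, 1; 0, 2, 0; 2, 0, 0]) (K := !![2, 0, 0; 0, 2, 0; 0, 0, 1]) g1 ha (by decide) (by decide)
  have g3 := step_in (K := !![2, 0, 0; 0, 1, 0; 0, 0, 2]) g2 hb (by decide)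
  have g4 := step_out (M' := !![2, 0, 0; 0, 1, 0; 0, 0, 2]) (K := !![1, 0, 0; 0, 1, 0; 0, 0, 1]) g3 hd (by decide) (by decide)
  have g5 := step_in (K := !![2, 0, 0; 2, 1, 0; 2, 2, 2]) g4 hc (by decide)
  have g6 := step_in (K := !![2, 0, 0; 2, 2, 0; 2, 1, 1]) g5 hb (by decide)
  have g7 := step_in (K := !![1, 0, 0; 2, 2, 0; 2, 0, 2]) g6 hc (by decide)
  have g8 := step_in (K := !![1, 0, 0; 2, 1, 0; 2, 0, 1]) g7 hb (by decide)
  have g9 := step_in (K := !![2, 0, 0; 0, 1, 0; 0, 2, 2]) g8 hc (by decide)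
  have g10 := step_out (M' := !![2, 0, 0; 0, 1, 0; 0, 2, 2]) (K := !![1, 0, 0; 0, 1, 1; 0, 0, 1]) g9 hd (by decide) (by decide)
  exact g10

theorem wE31 {φ : ZMod 3 →+* F} {a b c d : MulAut (SL3 F)} (ha : GIs a true (A3.map φ))
    (hb : GIs b false (B3.map φ)) (hc : GIs c false (C3.map φ)) (hd : GIs d true (D3.map φ)) :
    GIs (b * a * c * b * a * c * b * a * c * b * a * c) false ((!![1, 0, 0; 0, 1, 0; 1, 0, 1] : Z3).map φ) := by
  have g1 := step_out (M' := !![1, 0, 0; 0, 2, 0; 0, 0, 2]) (K := !![0, 0, 1; 0, 2, 0; 2, 0, 0]) hb ha (by decide) (by decide)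
  have g2 := step_in (K := !![2, 2, 2; 1, 2, 0; 1, 0, 0]) g1 hc (by decide)
  have g3 := step_in (K := !![2, 1, 1; 1, 1, 0; 1, 0, 0]) g2 hb (by decide)
  have g4 := step_out (M' := !![0, 0, 1; 0, 1, 2; 1, 2, 2]) (K := !![1, 0, 0; 2, 1, 0; 2, 2, 1]) g3 ha (by decide) (by decide)
  have g5 := step_in (K := !![2, 0, 0; 0, 1, 0; 1, 1, 2]) g4 hc (by decide)
  have g6 := step_in (K := !![2, 0, 0; 0, 2, 0; 1, 2, 1]) g5 hb (by decide)
  have g7 := step_out (M' := !![2, 0, 0; 0, 2, 0; 1, 2, 1]) (K := !![1, 0, 2; 2, 2, 0; 1, 0, 0]) g6 ha (by decide) (by decide)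
  have g8 := step_in (K := !![0, 1, 1; 2, 2, 0; 2, 0, 0]) g7 hc (by decide)
  have g9 := step_in (K := !![0, 2, 2; 2, 1, 0; 2, 0, 0]) g8 hb (by decide)
  have g10 := step_out (M' := !![0, 0, 2; 0, 1, 2; 2, 2, 1]) (K := !![2, 0, 0; 2, 1, 0; 1, 2, 2]) g9 ha (by decide) (by decide)
  have g11 := step_in (K := !![1, 0, 0; 0, 1, 0; 1, 0, 1]) g10 hc (by decide)
  exact g11

theorem wE21 {φ : ZMod 3 →+* F} {a b c d : MulAut (SL3 F)} (ha : GIs a true (A3.map φ))
    (hb : GIs b false (B3.map φ)) (hc : GIs c false (C3.map φ)) (hd : GIs d true (D3.map φ)) :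
    GIs (a * b * c * b * c * b * a * c * b) false ((!![1, 0, 0; 1, 1, 0; 0, 0, 1] : Z3).map φ) := by
  have g1 := step_in (K := !![0, 0, 2; 0, 2, 0; 1, 0, 0]) ha hb (by decide)
  have g2 := step_in (K := !![1, 1, 1; 1, 2, 0; 2, 0, 0]) g1 hc (by decide)
  have g3 := step_in (K := !![1, 2, 2; 1, 1, 0; 2, 0, 0]) g2 hb (by decide)
  have g4 := step_in (K := !![1, 0, 1; 1, 1, 0; 1, 0, 0]) g3 hc (by decide)
  have g5 := step_in (K := !![1, 0, 2; 1, 2, 0; 1, 0, 0]) g4 hb (by decide)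
  have g6 := step_out (M' := !![0, 0, 1; 0, 2, 1; 2, 0, 1]) (K := !![2, 0, 0; 0, 2, 0; 1, 1, 1]) g5 ha (by decide) (by decide)
  have g7 := step_in (K := !![1, 0, 0; 1, 2, 0; 0, 0, 2]) g6 hc (by decide)
  have g8 := step_in (K := !![1, 0, 0; 1, 1, 0; 0, 0, 1]) g7 hb (by decide)
  exact g8

theorem wE32 {φ : ZMod 3 →+* F} {a b c d : MulAut (SL3 F)} (ha : GIs a true (A3.map φ))
    (hb : GIs b false (B3.map φ)) (hc : GIs c false (C3.map φ)) (hd : GIs d true (D3.map φ)) :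
    GIs (a * b * a * b * c * b * c * b * c) false ((!![1, 0, 0; 0, 1, 0; 0, 1, 1] : Z3).map φ) := by
  have g1 := step_in (K := !![0, 0, 2; 0, 2, 0; 1, 0, 0]) ha hb (by decide)
  have g2 := step_out (M' := !![0, 0, 1; 0, 2, 0; 2, 0, 0]) (K := !![2, 0, 0; 0, 2, 0; 0, 0, 1]) g1 ha (by decide) (by decide)
  have g3 := step_in (K := !![2, 0, 0; 0, 1, 0; 0, 0, 2]) g2 hb (by decide)
  have g4 := step_in (K := !![1, 0, 0; 2, 1, 0; 1, 1, 1]) g3 hc (by decide)
  have g5 := step_in (K := !![1, 0, 0; 2, 2, 0; 1, 2, 2]) g4 hb (by decide)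
  have g6 := step_in (K := !![2, 0, 0; 2, 2, 0; 1, 0, 1]) g5 hc (by decide)
  have g7 := step_in (K := !![2, 0, 0; 2, 1, 0; 1, 0, 2]) g6 hb (by decide)
  have g8 := step_in (K := !![1, 0, 0; 0, 1, 0; 0, 1, 1]) g7 hc (by decide)
  exact g8

theorem wE13 {φ : ZMod 3 →+* F} {a b c d : MulAut (SL3 F)} (ha : GIs a true (A3.map φ))
    (hb : GIs b false (B3.map φ)) (hc : GIs c false (C3.map φ)) (hd : GIs d true (D3.map φ)) :
    GIs (a * b * a * d * c * b * a * c * b * a * c * b * c * d) false ((!![1, 0, 1; 0, 1, 0; 0, 0, 1] : Z3).map φ) := by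
  have g1 := step_in (K := !![0, 0, 2; 0, 2, 0; 1, 0, 0]) ha hb (by decide)
  have g2 := step_out (M' := !![0, 0, 1; 0, 2, 0; 2, 0, 0]) (K := !![2, 0, 0; 0, 2, 0; 0, 0, 1]) g1 ha (by decide) (by decide)
  have g3 := step_out (M' := !![2, 0, 0; 0, 2, 0; 0, 0, 1]) (K := !![1, 0, 0; 0, 2, 0; 0, 0, 2]) g2 hd (by decide) (by decide)
  have g4 := step_in (K := !![2, 0, 0; 1, 2, 0; 1, 1, 1]) g3 hc (by decide)
  have g5 := step_in (K := !![2, 0, 0; 1, 1, 0; 1, 2, 2]) g4 hb (by decide)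
  have g6 := step_out (M' := !![2, 0, 0; 1, 1, 0; 1, 2, 2]) (K := !![1, 1, 2; 2, 1, 0; 2, 0, 0]) g5 ha (by decide) (by decide)
  have g7 := step_in (K := !![2, 2, 1; 0, 1, 0; 1, 0, 0]) g6 hc (by decide)
  have g8 := step_in (K := !![2, 1, 2; 0, 2, 0; 1, 0, 0]) g7 hb (by decide)
  have g9 := step_out (M' := !![0, 0, 1; 0, 2, 0; 2, 2, 2]) (K := !![2, 0, 0; 2, 2, 0; 2, 0, 1]) g8 ha (by decide) (by decide)
  have g10 := step_in (K := !![1, 0, 0; 2, 2, 0; 0, 2, 2]) g9 hc (by decide)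
  have g11 := step_in (K := !![1, 0, 0; 2, 1, 0; 0, 1, 1]) g10 hb (by decide)
  have g12 := step_in (K := !![2, 0, 0; 0, 1, 0; 1, 0, 2]) g11 hc (by decide)
  have g13 := step_out (M' := !![2, 0, 0; 0, 1, 0; 2, 0, 2]) (K := !![1, 0, 1; 0, 1, 0; 0, 0, 1]) g12 hd (by decide) (by decide)
  exact g13

/-- the homomorphism from the prime field -/
theorem exists_hom (h3 : (3 : F) = 0) : Nonempty (ZMod 3 →+* F) := by
  have : CharP F 3 := (CharP.charP_iff_prime_eq_zero Nat.prime_three).2 (by exact_mod_cast h3)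
  exact ⟨ZMod.castHom (dvd_refl 3) F⟩

theorem two_eq (h3 : (3 : F) = 0) : (2 : F) = -1 := by
  linear_combination h3

/-- one transvection and its square -/
theorem inA_t {H : Subgroup (MulAut (SL3 F))} (hF : ∀ t : F, t = 0 ∨ t = 1 ∨ t = -1)
    {i j : Fin 3} (hij : i ≠ j) (h3 : (3 : F) = 0) (h : InA H (transvection i j (1 : F))) (t : F) :
    InA H (transvection i j t) := by
  rcases hF t with rfl | rfl | rfl
  · rw [transvection_zero]
    exact InA.one
  · exact h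
  · have h1 := h.mul h
    rw [transvection_mul_transvection_same _ _ hij] at h1
    have e : (1 : F) + 1 = -1 := by linear_combination h3
    rwa [e] at h1

theorem R3G_thm (hTRV : TRVStmt) : R3GStmt := by
  intro F _ _ h3 hcard a b c d G
  have hF : ∀ t : F, t = 0 ∨ t = 1 ∨ t = -1 := by
    intro t
    have := Fintype.ofFinite F
    have h1 : t ^ 3 = t := by
      have h2 := FiniteField.pow_card t
      rwa [← Nat.card_eq_fintype_card, hcard] at h2
    have h2 : t * ((t - 1) * (t + 1)) = 0 := by linear_combination h1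
    rcases mul_eq_zero.1 h2 with h | h
    · exact Or.inl h
    · rcases mul_eq_zero.1 h with h | h
      · exact Or.inr (Or.inl (by linear_combination h))
      · exact Or.inr (Or.inr (by linear_combination h))
  obtain ⟨φ⟩ := exists_hom h3
  have e2 := two_eq h3
  have p2 : φ 2 = -1 := by rw [map_ofNat, e2]
  have ha : GIs a true (A3.map φ) := by
    have h := G.ha
    have e : A3.map φ = !![0, 0, 1; 0, 1, 0; 1, 0, 0] := by
      ext i j; fin_cases i <;> fin_cases j <;> simp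
    rwa [e]
  have hb : GIs b false (B3.map φ) := by
    have h := G.hb
    have e : B3.map φ = dg 1 (-1) (-1) := by
      ext i j; fin_cases i <;> fin_cases j <;> simp [dg, p2, -map_ofNat]
    rwa [e]
  have hc : GIs c false (C3.map φ) := by
    have h := G.hc
    have e : C3.map φ = !![-1, 0, 0; -1, 1, 0; -1, -1, -1] := by
      ext i j; fin_cases i <;> fin_cases j <;> simp [p2, -map_ofNat]
    rwa [e]
  have hd : GIs d true (D3.map φ) := by
    have h := G.hd
    have e : D3.map φ = dg (-1) 1 (-1) := by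
      ext i j; fin_cases i <;> fin_cases j <;> simp [dg, p2, -map_ofNat]
    rwa [e]
  set H := Subgroup.closure ({a, b, c, d} : Set (MulAut (SL3 F))) with hH
  have ma : a ∈ H := Subgroup.subset_closure (by simp)
  have mb : b ∈ H := Subgroup.subset_closure (by simp)
  have mc : c ∈ H := Subgroup.subset_closure (by simp)
  have md : d ∈ H := Subgroup.subset_closure (by simp)
  have key : ∀ {K : Z3} {x : MulAut (SL3 F)} {i j : Fin 3}, GIs x false (K.map φ) → x ∈ H →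
      i ≠ j → K = transvection i j 1 → ∀ t : F, InA H (transvection i j t) := by
    intro K x i j h1 h2 hij h4 t
    have e : K.map φ = transvection i j (1 : F) := by
      rw [h4, transvection, transvection]
      ext a b
      simp [Matrix.one_apply, Matrix.single_apply, apply_ite φ]
    rw [e] at h1
    exact inA_t hF hij h3 (h1.inA h2 (det_transvection_of_ne i j hij 1)) t
  apply hTRV F H 1
  intro i j hij t
  have e1 : ((1 : GL (Fin 3) F) : Matrix (Fin 3) (Fin 3) F) * transvection i j t *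
      (((1 : GL (Fin 3) F)⁻¹ : GL (Fin 3) F) : Matrix (Fin 3) (Fin 3) F) = transvection i j t := by
    simp
  rw [e1]
  fin_cases i <;> fin_cases j
  · exact absurd rfl hij
  · exact key (wE12 ha hb hc hd) (mul_mem (mul_mem (mul_mem (mul_mem (mul_mem (mul_mem (mul_mem (mul_mem (mul_mem (mul_mem ma mb) md) mc) mb) mc) mb) ma) mc) mb) md) (by decide) (by decide) t
  · exact key (wE13 ha hb hc hd) (mul_mem (mul_mem (mul_mem (mul_mem (mul_mem (mul_mem (mul_mem (mul_mem (mul_mem (mul_mem (mul_mem (mul_mem (mul_mem ma mb) ma) md) mc) mb) ma) mc) mb) ma) mc) mb) mc) md) (by decide) (by decide) t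
  · exact key (wE21 ha hb hc hd) (mul_mem (mul_mem (mul_mem (mul_mem (mul_mem (mul_mem (mul_mem (mul_mem ma mb) mc) mb) mc) mb) ma) mc) mb) (by decide) (by decide) t
  · exact absurd rfl hij
  · exact key (wE23 ha hb hc hd) (mul_mem (mul_mem (mul_mem (mul_mem (mul_mem (mul_mem (mul_mem (mul_mem (mul_mem (mul_mem ma mb) ma) mb) md) mc) mb) mc) mb) mc) md) (by decide) (by decide) t
  · exact key (wE31 ha hb hc hd) (mul_mem (mul_mem (mul_mem (mul_mem (mul_mem (mul_mem (mul_mem (mul_mem (mul_mem (mul_mem (mul_mem mb ma) mc) mb) ma) mc) mb) ma) mc) mb) ma) mc) (by decide) (by decide) t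
  · exact key (wE32 ha hb hc hd) (mul_mem (mul_mem (mul_mem (mul_mem (mul_mem (mul_mem (mul_mem (mul_mem ma mb) ma) mb) mc) mb) mc) mb) mc) (by decide) (by decide) t
  · exact absurd rfl hij

end Pool.SCG.R3G
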